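import Pool.Agent.H6.Win.ZetaLoc

/-!
# Local zeros and the logarithmic derivative, analytic remainder
-/

set_option autoImplicit false

open Complex Metric Set Filter Topology Real MeasureTheory

namespace Pool.Agent.H6

/-- Local zeros and the logarithmic derivative, with an analytic remainder. -/
theorem loc_log_an {R0 R1 R2 : ℝ} (h0 : 0 < R0) (h01 : R0 < R1) (h12 : R1 < R2) :
    ∃ C : ℝ, 0 < C ∧ ∀ (f : ℂ → ℂ) (c : ℂ) (Λ : ℝ), 0 < Λ →
      AnalyticOnNhd ℂ f (closedBall c R2) → f c ≠ 0 →
      (∀ z ∈ closedBall c R2, ‖f z‖ ≤ Real.exp Λ * ‖f c‖) →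
      ∃ (S : Finset ℂ) (H : ℂ → ℂ), (∀ u, u ∈ S ↔ (u ∈ closedBall c R1 ∧ f u = 0)) ∧
        (∀ u ∈ S, 1 ≤ analyticOrderNatAt f u) ∧
        (∑ u ∈ S, (analyticOrderNatAt f u : ℝ)) ≤ C * Λ ∧
        DifferentiableOn ℂ H (ball c R1) ∧
        (∀ z ∈ closedBall c R0, ‖H z‖ ≤ C * Λ) ∧
        ∀ z ∈ ball c R1, f z ≠ 0 →
          deriv f z / f z = ∑ u ∈ S, (analyticOrderNatAt f u : ℂ) / (z - u) + H z := by
  classical
  obtain ⟨C1, hC1, hlog⟩ := logDeriv_le_of_ne_zero h0 h01
  have hR1 : 0 < R1 := by linarith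
  have hR2 : 0 < R2 := by linarith
  have hlr : 0 < Real.log (R2 / R1) := Real.log_pos (by rw [lt_div_iff₀ hR1]; linarith)
  have hq : 0 < R2 ^ 2 - R1 * R1 := by nlinarith
  set K : ℝ := 1 / Real.log (R2 / R1) with hK
  have hKpos : 0 < K := by positivity
  refine ⟨K + (C1 + K * (R1 / (R2 ^ 2 - R1 * R1))), by positivity, ?_⟩
  intro f c Λ hΛ hf hfc hup
  obtain ⟨S2, n, g, hg, hgne, hS, hfac⟩ := exists_factor hR2 hf hfc
  set S : Finset ℂ := S2.filter (fun u => u ∈ closedBall c R1 ∧ f u = 0 ∧ n u ≠ 0) with hSdef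
  have hcU : c ∈ closedBall c R2 := mem_closedBall_self hR2.le
  -- membership
  have hmem : ∀ u, u ∈ S ↔ (u ∈ closedBall c R1 ∧ f u = 0) := by
    intro u
    rw [hSdef, Finset.mem_filter]
    constructor
    · rintro ⟨_, h1, h2, _⟩; exact ⟨h1, h2⟩
    · rintro ⟨h1, h2⟩
      have hu2 : u ∈ closedBall c R2 := closedBall_subset_closedBall h12.le h1
      have h3 := h2
      rw [hfac u hu2] at h3
      rcases mul_eq_zero.1 h3 with h | h
      · rw [Finset.prod_eq_zero_iff] at h
        obtain ⟨v, hv, h4⟩ := h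
        have h5 : u - v = 0 := by
          by_contra h6
          exact (pow_ne_zero _ h6) h4
        have h6 : n v ≠ 0 := by
          intro h7
          rw [h7, pow_zero] at h4
          exact one_ne_zero h4
        have h8 : v = u := (sub_eq_zero.1 h5).symm
        subst h8
        exact ⟨hv, h1, h2, h6⟩
      · exact absurd h (hgne u hu2)
  have hball : ∀ u ∈ S, u ∈ ball c R2 := by
    intro u hu
    have := ((hmem u).1 hu).1
    rw [mem_closedBall] at this
    rw [mem_ball]
    linarith
  have hnorm : ∀ u ∈ S, ‖u - c‖ ≤ R1 := by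
    intro u hu
    have := ((hmem u).1 hu).1
    rwa [mem_closedBall, dist_eq_norm] at this
  have hsub : S ⊆ S2 := Finset.filter_subset _ _
  have hord : ∀ u ∈ S, analyticOrderNatAt f u = n u := fun u hu =>
    order_eq_of_factor hg hgne hf hfac (hsub hu) (hball u hu)
  have hn1 : ∀ u ∈ S, 1 ≤ n u := by
    intro u hu
    rw [hSdef, Finset.mem_filter] at hu
    exact Nat.one_le_iff_ne_zero.2 hu.2.2.2
  -- the modified function
  set b : ℂ → ℂ → ℂ := blf c R2 with hb
  set G : ℂ → ℂ := fun z => (∏ u ∈ S, (b u z) ^ (n u)) * ((∏ u ∈ S2 \ S, (z - u) ^ (n u)) * g z)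
    with hGdef
  have hfac' : ∀ z ∈ closedBall c R2,
      f z = (∏ u ∈ S, (z - u) ^ (n u)) * ((∏ u ∈ S2 \ S, (z - u) ^ (n u)) * g z) := by
    intro z hz
    rw [hfac z hz, ← mul_assoc]
    congr 1
    rw [mul_comm]
    exact (Finset.prod_sdiff hsub).symm
  have hGan : AnalyticOnNhd ℂ G (closedBall c R2) := by
    intro z hz
    apply AnalyticAt.mul
    · apply Finset.analyticAt_fun_prod
      intro u _
      exact (blf_analyticAt c R2 u z).pow _
    · apply AnalyticAt.mul _ (hg z hz)
      apply Finset.analyticAt_fun_prod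
      intro u _
      exact ((analyticAt_id.sub analyticAt_const).pow _)
  have hbne : ∀ u ∈ S, ∀ z ∈ closedBall c R2, b u z ≠ 0 := by
    intro u hu z hz
    rw [mem_closedBall, dist_eq_norm] at hz
    have h1 := norm_blf_ge hR2 (hnorm u hu) hz hR1.le
    have h2 : 0 < (R2 ^ 2 - R1 * R2) / R2 := by
      apply div_pos _ hR2
      nlinarith
    intro h
    rw [hb] at h
    rw [h, norm_zero] at h1
    linarith
  -- modulus on the sphere
  have hsph : ∀ z, ‖z - c‖ = R2 → ‖G z‖ = ‖f z‖ := by
    intro z hz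
    have hzc : z ∈ closedBall c R2 := by rw [mem_closedBall, dist_eq_norm, hz]
    rw [hfac' z hzc, hGdef]
    simp only
    rw [norm_mul, norm_mul (∏ u ∈ S, (z - u) ^ (n u))]
    congr 1
    rw [norm_prod, norm_prod]
    refine Finset.prod_congr rfl fun u hu => ?_
    rw [norm_pow, norm_pow, hb, norm_blf_sphere hR2 hz]
  -- maximum modulus
  have hmax : ∀ z ∈ closedBall c R2, ‖G z‖ ≤ Real.exp Λ * ‖f c‖ := by
    intro z hz
    have hd : DiffContOnCl ℂ G (ball c R2) := by
      apply DifferentiableOn.diffContOnCl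
      rw [closure_ball c hR2.ne']
      exact hGan.differentiableOn
    refine Complex.norm_le_of_forall_mem_frontier_norm_le isBounded_ball hd ?_ ?_
    · intro w hw
      rw [frontier_ball c hR2.ne', mem_sphere, dist_eq_norm] at hw
      rw [hsph w hw]
      exact hup w (by rw [mem_closedBall, dist_eq_norm, hw])
    · rw [closure_ball c hR2.ne']; exact hz
  -- value at the centre
  have hcS : ∀ u ∈ S, c - u ≠ 0 := by
    intro u hu h
    have : u = c := (sub_eq_zero.1 h).symm
    rw [this] at hu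
    exact hfc ((hmem c).1 hu).2
  have hGc : ‖G c‖ = (∏ u ∈ S, (R2 / ‖c - u‖) ^ (n u)) * ‖f c‖ := by
    rw [hfac' c hcU, hGdef]
    simp only
    rw [norm_mul, norm_mul (∏ u ∈ S, (c - u) ^ (n u)), ← mul_assoc]
    congr 1
    rw [norm_prod, norm_prod, ← Finset.prod_mul_distrib]
    refine Finset.prod_congr rfl fun u hu => ?_
    have hb0 : ‖b u c‖ = R2 := by
      rw [hb]
      unfold blf
      rw [sub_self, mul_zero, sub_zero, norm_div, norm_pow, Complex.norm_real, Real.norm_eq_abs,
        abs_of_pos hR2]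
      field_simp
    rw [norm_pow, norm_pow, hb0, ← mul_pow]
    congr 1
    have : 0 < ‖c - u‖ := norm_pos_iff.2 (hcS u hu)
    field_simp
  have hfcpos : 0 < ‖f c‖ := norm_pos_iff.2 hfc
  have hGcge : (R2 / R1) ^ (∑ u ∈ S, n u) * ‖f c‖ ≤ ‖G c‖ := by
    rw [hGc, ← Finset.prod_pow_eq_pow_sum]
    gcongr with u hu
    · exact norm_pos_iff.2 (hcS u hu)
    · rw [← norm_neg, neg_sub]
      exact hnorm u hu
  -- number of zeros
  have hcount : (∑ u ∈ S, (n u : ℝ)) ≤ K * Λ := by
    have h1 : (R2 / R1) ^ (∑ u ∈ S, n u) ≤ Real.exp Λ := by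
      have := hGcge.trans (hmax c hcU)
      exact le_of_mul_le_mul_right this hfcpos
    have h2 := Real.log_le_log (by positivity) h1
    rw [Real.log_exp, Real.log_pow] at h2
    rw [hK, one_div, ← div_eq_inv_mul, le_div_iff₀ hlr]
    push_cast at h2
    exact h2
  -- the logarithmic derivative of G
  have hGne : ∀ z ∈ ball c R1, G z ≠ 0 := by
    intro z hz
    have hz2 : z ∈ closedBall c R2 :=
      closedBall_subset_closedBall h12.le (ball_subset_closedBall hz)
    refine mul_ne_zero (Finset.prod_ne_zero_iff.2 fun u hu => pow_ne_zero _ (hbne u hu z hz2))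
      (mul_ne_zero (Finset.prod_ne_zero_iff.2 fun u hu => ?_) (hgne z hz2))
    rw [Finset.mem_sdiff] at hu
    by_cases hnu : n u = 0
    · rw [hnu, pow_zero]; exact one_ne_zero
    · apply pow_ne_zero
      intro h
      have h1 : u = z := (sub_eq_zero.1 h).symm
      subst h1
      exact hu.2 ((hmem u).2 ⟨ball_subset_closedBall hz, (hS u hu.1).2⟩)
  have hGc_ge : ‖f c‖ ≤ ‖G c‖ := by
    refine le_trans ?_ hGcge
    have h1 : 1 ≤ (R2 / R1) ^ (∑ u ∈ S, n u) := by
      apply one_le_pow₀
      rw [le_div_iff₀ hR1]; linarith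
    nlinarith
  have hlogG := hlog G c Λ hΛ
    (hGan.differentiableOn.mono (ball_subset_closedBall.trans (closedBall_subset_closedBall h12.le)))
    hGne (fun z hz => (hmax z (closedBall_subset_closedBall h12.le (ball_subset_closedBall hz))).trans
      (by gcongr))
  set H : ℂ → ℂ := fun z => deriv G z / G z -
    ∑ u ∈ S, (n u : ℂ) * ((-(starRingEnd ℂ) (u - c) / R2) / b u z) with hHdef
  refine ⟨S, H, hmem, fun u hu => by rw [hord u hu]; exact hn1 u hu, ?_, ?_, ?_, ?_⟩
  · rw [Finset.sum_congr rfl (fun u hu => by rw [hord u hu])]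
    refine hcount.trans ?_
    gcongr
    have : 0 ≤ C1 + K * (R1 / (R2 ^ 2 - R1 * R1)) := by positivity
    linarith
  · intro z hz
    have hz2 : z ∈ closedBall c R2 :=
      closedBall_subset_closedBall h12.le (ball_subset_closedBall hz)
    apply DifferentiableAt.differentiableWithinAt
    apply DifferentiableAt.sub
    · exact ((hGan z hz2).deriv.div (hGan z hz2) (hGne z hz)).differentiableAt
    · apply DifferentiableAt.fun_sum
      intro u hu
      exact ((differentiableAt_const _).div (blf_analyticAt c R2 u z).differentiableAt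
        (hbne u hu z hz2)).const_mul _
  · intro z hz
    rw [mem_closedBall, dist_eq_norm] at hz
    have hzR2 : z ∈ ball c R2 := by rw [mem_ball, dist_eq_norm]; linarith
    have hz2 := ball_subset_closedBall hzR2
    have h4 : ‖∑ u ∈ S, (n u : ℂ) * ((-(starRingEnd ℂ) (u - c) / R2) / b u z)‖ ≤
        K * Λ * (R1 / (R2 ^ 2 - R1 * R1)) := by
      calc ‖∑ u ∈ S, (n u : ℂ) * ((-(starRingEnd ℂ) (u - c) / R2) / b u z)‖
          ≤ ∑ u ∈ S, (n u : ℝ) * (R1 / (R2 ^ 2 - R1 * R1)) := by
            refine norm_sum_le_of_le _ fun u hu => ?_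
            rw [norm_mul, Complex.norm_natCast]
            gcongr
            have h5 := norm_blf_ge (z := z) (b := R1) hR2 (hnorm u hu) (by linarith) hR1.le
            rw [norm_div, norm_div, norm_neg, RCLike.norm_conj, Complex.norm_real,
              Real.norm_eq_abs, abs_of_pos hR2]
            have h6 : 0 < (R2 ^ 2 - R1 * R1) / R2 := by positivity
            calc ‖u - c‖ / R2 / ‖b u z‖ ≤ (R1 / R2) / ((R2 ^ 2 - R1 * R1) / R2) := by
                  have := hnorm u hu
                  have := norm_nonneg (u - c)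
                  rw [hb]
                  gcongr
              _ = R1 / (R2 ^ 2 - R1 * R1) := by
                  field_simp
        _ = (∑ u ∈ S, (n u : ℝ)) * (R1 / (R2 ^ 2 - R1 * R1)) := by rw [Finset.sum_mul]
        _ ≤ K * Λ * (R1 / (R2 ^ 2 - R1 * R1)) := by gcongr
    calc ‖deriv G z / G z - ∑ u ∈ S, (n u : ℂ) * ((-(starRingEnd ℂ) (u - c) / R2) / b u z)‖
        ≤ ‖deriv G z / G z‖ + ‖∑ u ∈ S, (n u : ℂ) * ((-(starRingEnd ℂ) (u - c) / R2) / b u z)‖ :=
          norm_sub_le _ _
      _ ≤ C1 * Λ + K * Λ * (R1 / (R2 ^ 2 - R1 * R1)) := by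
          gcongr
          exact hlogG z hz
      _ ≤ (K + (C1 + K * (R1 / (R2 ^ 2 - R1 * R1)))) * Λ := by
          have : 0 ≤ K * Λ := by positivity
          nlinarith
  · intro z hzR1 hfz
    have hzR2 : z ∈ ball c R2 := by
      rw [mem_ball] at hzR1 ⊢
      linarith
    have hz2 := ball_subset_closedBall hzR2
    have hzu : ∀ u ∈ S, z - u ≠ 0 := by
      intro u hu h
      have : u = z := (sub_eq_zero.1 h).symm
      rw [this] at hu
      exact hfz ((hmem z).1 hu).2
    set h : ℂ → ℂ := fun z => (∏ u ∈ S2 \ S, (z - u) ^ (n u)) * g z with hh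
    have hhan : AnalyticAt ℂ h z := by
      apply AnalyticAt.mul _ (hg z hz2)
      apply Finset.analyticAt_fun_prod
      intro u _
      exact ((analyticAt_id.sub analyticAt_const).pow _)
    have hhne : h z ≠ 0 := by
      have := hGne z hzR1
      rw [hGdef] at this
      exact right_ne_zero_of_mul this
    have e1 : deriv f z / f z = (∑ u ∈ S, (n u : ℂ) / (z - u)) + deriv h z / h z := by
      have h1 : f =ᶠ[𝓝 z] fun z => (∏ u ∈ S, (z - u) ^ (n u)) * h z := by
        filter_upwards [isOpen_ball.mem_nhds hzR2] with w hw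
        exact hfac' w (ball_subset_closedBall hw)
      have h2 : logDeriv f z = logDeriv (fun z => (∏ u ∈ S, (z - u) ^ (n u)) * h z) z := by
        rw [logDeriv_apply, logDeriv_apply, h1.deriv_eq, h1.self_of_nhds]
      rw [← logDeriv_apply, ← logDeriv_apply, h2, logDeriv_mul]
      · congr 1
        rw [logDeriv_prod]
        · refine Finset.sum_congr rfl fun u hu => ?_
          rw [logDeriv_fun_pow (by fun_prop), logDeriv_apply]
          simp [div_eq_mul_inv]
        · intro u hu
          exact pow_ne_zero _ (hzu u hu)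
        · intro u hu
          fun_prop
      · exact Finset.prod_ne_zero_iff.2 fun u hu => pow_ne_zero _ (hzu u hu)
      · exact hhne
      · fun_prop
      · exact hhan.differentiableAt
    have e2 : deriv G z / G z = (∑ u ∈ S, (n u : ℂ) * ((-(starRingEnd ℂ) (u - c) / R2) / b u z)) +
        deriv h z / h z := by
      rw [← logDeriv_apply, ← logDeriv_apply, hGdef, logDeriv_mul]
      · congr 1
        rw [logDeriv_prod]
        · refine Finset.sum_congr rfl fun u hu => ?_
          rw [logDeriv_fun_pow (blf_hasDerivAt c R2 u z).differentiableAt, logDeriv_apply,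
            (blf_hasDerivAt c R2 u z).deriv]
        · intro u hu
          exact pow_ne_zero _ (hbne u hu z hz2)
        · intro u hu
          exact (blf_hasDerivAt c R2 u z).differentiableAt.pow _
      · exact Finset.prod_ne_zero_iff.2 fun u hu => pow_ne_zero _ (hbne u hu z hz2)
      · exact hhne
      · exact DifferentiableAt.fun_finsetProd fun u _ =>
          (blf_hasDerivAt c R2 u z).differentiableAt.pow _
      · exact hhan.differentiableAt
    have e3 : deriv f z / f z - ∑ u ∈ S, (analyticOrderNatAt f u : ℂ) / (z - u) =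
        deriv G z / G z - ∑ u ∈ S, (n u : ℂ) * ((-(starRingEnd ℂ) (u - c) / R2) / b u z) := by
      have hs : ∑ u ∈ S, (analyticOrderNatAt f u : ℂ) / (z - u) = ∑ u ∈ S, (n u : ℂ) / (z - u) :=
        Finset.sum_congr rfl (fun u hu => by rw [hord u hu])
      rw [e1, e2, hs]
      ring
    rw [hHdef]
    simp only
    rw [← e3]
    ring

end Pool.Agent.H6
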